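import Pool.Agent.TH942.ES.Ext
import Pool.Agent.V11333.Central3

/-!
# The sectorial law for systems of primes, with and without a given continuation
-/

set_option autoImplicit false

namespace Pool.Agent.V1194.SO

open Filter Topology Set
open Pool.Agent.TH942.ES Pool.Agent.TH942.SL Pool.Agent.V11333

variable {X : Type} {d : ℕ} {N : X → ℕ} {α : X → Fin d → ℂ} {Ψ : ℂ → ℂ} {ρ ρ' κ κ' : ℝ}

/-- `S_ρ(Y) = κ log log Y + O(1)` -/
def LawE (N : X → ℕ) (α : X → Fin d → ℂ) (ρ ρ' κ : ℝ) : Prop :=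
  ∃ C : ℝ, ∀ᶠ Y : ℝ in atTop, |SrE N α ρ ρ' Y - κ * Real.log (Real.log Y)| ≤ C

/-- `S_ρ(Y) = O(exp((θ + ε) (log Y)^ρ))` for every `ε > 0` -/
def GrowthE (N : X → ℕ) (α : X → Fin d → ℂ) (ρ ρ' θ : ℝ) : Prop :=
  ∀ ε : ℝ, 0 < ε → ∃ C : ℝ, ∀ᶠ Y : ℝ in atTop,
    |SrE N α ρ ρ' Y| ≤ C * Real.exp ((θ + ε) * Real.log Y ^ ρ)

theorem loglog_tendsto : Tendsto (fun X : ℝ => Real.log (Real.log X)) atTop atTop :=
  Real.tendsto_log_atTop.comp Real.tendsto_log_atTop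

/-- two laws have the same exponent -/
theorem LawE.unique (h1 : LawE N α ρ ρ' κ) (h2 : LawE N α ρ ρ' κ') : κ = κ' := by
  obtain ⟨C, hC⟩ := h1
  obtain ⟨D, hD⟩ := h2
  by_contra hne
  have h3 : 0 < |κ - κ'| := abs_pos.2 (sub_ne_zero.2 hne)
  obtain ⟨Y, hY1, hY2, hY3, hY4⟩ := (hC.and (hD.and
    ((loglog_tendsto.eventually_gt_atTop ((C + D) / |κ - κ'|)).and
      (loglog_tendsto.eventually_gt_atTop 0)))).exists
  have e1 : (κ - κ') * Real.log (Real.log Y) = (SrE N α ρ ρ' Y - κ' * Real.log (Real.log Y)) -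
      (SrE N α ρ ρ' Y - κ * Real.log (Real.log Y)) := by ring
  have e2 : |(κ - κ') * Real.log (Real.log Y)| ≤ D + C := by
    rw [e1]
    exact (abs_sub _ _).trans (add_le_add hY2 hY1)
  rw [abs_mul, abs_of_pos hY4] at e2
  rw [div_lt_iff₀ h3] at hY3
  nlinarith

theorem small_of_law (h : LawE N α ρ ρ' κ) : ∀ᶠ Y : ℝ in atTop,
    |SrE N α ρ ρ' Y| ≤ (|κ| + 1) * Real.log (Real.log Y) := by
  obtain ⟨C, hC⟩ := h
  filter_upwards [hC, loglog_tendsto.eventually_ge_atTop C,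
    loglog_tendsto.eventually_ge_atTop 0] with Y h4 h5 h6
  have h7 := abs_sub_abs_le_abs_sub (SrE N α ρ ρ' Y) (κ * Real.log (Real.log Y))
  rw [abs_mul, abs_of_nonneg h6] at h7
  nlinarith

theorem growth_of_law (hρ : 1 < ρ) (h : LawE N α ρ ρ' κ) : GrowthE N α ρ ρ' 0 := by
  intro ε hε
  refine ⟨(|κ| + 1) / ε, ?_⟩
  filter_upwards [small_of_law h, Real.tendsto_log_atTop.eventually_ge_atTop 1] with Y h4 h5
  have hT : 0 < Real.log Y := by linarith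
  have e1 : Real.log (Real.log Y) ≤ Real.log Y ^ ρ := by
    have := Real.log_le_sub_one_of_pos hT
    have e2 : Real.log Y ≤ Real.log Y ^ ρ := by
      conv_lhs => rw [← Real.rpow_one (Real.log Y)]
      exact Real.rpow_le_rpow_of_exponent_le h5 hρ.le
    linarith
  have e2 : ε * Real.log Y ^ ρ ≤ Real.exp (ε * Real.log Y ^ ρ) := by
    have := Real.add_one_le_exp (ε * Real.log Y ^ ρ)
    linarith
  have hk : 0 ≤ |κ| + 1 := by positivity
  calc |SrE N α ρ ρ' Y| ≤ (|κ| + 1) * Real.log (Real.log Y) := h4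
    _ ≤ (|κ| + 1) * Real.log Y ^ ρ := by gcongr
    _ = (|κ| + 1) / ε * (ε * Real.log Y ^ ρ) := by field_simp
    _ ≤ (|κ| + 1) / ε * Real.exp (ε * Real.log Y ^ ρ) := by gcongr
    _ = _ := by rw [zero_add]

theorem order_finite (E : Sys N α) (H : Con N α Ψ) (h0 : AnalyticAt ℂ Ψ 0) :
    ∃ r : ℕ, analyticOrderAt Ψ 0 = r := by
  refine Central.order_nat E (fun x hx => ?_) fun x hx => ?_
  · rcases hx.eq_or_lt with rfl | hx
    · simpa using h0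
    · have ho : IsOpen {z : ℂ | 0 < z.re} := isOpen_lt continuous_const Complex.continuous_re
      exact DifferentiableOn.analyticAt (s := {z : ℂ | 0 < z.re})
        (fun z hz => (H.Ψd z hz).differentiableWithinAt) (ho.mem_nhds (by simpa using hx))
  · exact (H.prod x (by simpa using hx)).tprod_eq.symm

/-- **The law for a given continuation.** -/
theorem law (E : Sys N α) (H : Con N α Ψ) (h0 : AnalyticAt ℂ Ψ 0) (hρ : 1 < ρ) (hρ' : ρ < ρ')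
    (r : ℕ) : (analyticOrderAt Ψ 0 = r ∧ ∀ s ∈ Sect ρ, Ψ s ≠ 0) ↔ LawE N α ρ ρ' r := by
  have up : ∀ m : ℕ, analyticOrderAt Ψ 0 = m → (∀ s ∈ Sect ρ, Ψ s ≠ 0) → LawE N α ρ ρ' m := by
    intro m hm hz
    obtain ⟨C, -, hC⟩ := E.Sr_up H hρ hρ' (Central.ordZero_of h0 hm)
      (fun s h3 h4 => hz s ⟨h3, h4⟩)
    exact ⟨C, hC⟩
  constructor
  · rintro ⟨h1, h2⟩
    exact up r h1 h2
  · intro h
    have hz : ∀ s ∈ Sect ρ, Ψ s ≠ 0 := by
      intro s hs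
      exact E.sector_of_small H hρ hρ' (small_of_law h) s hs.1 hs.2
    obtain ⟨m, hm⟩ := order_finite E H h0
    have h5 : r = m := by exact_mod_cast h.unique (up m hm hz)
    rw [h5]
    exact ⟨hm, hz⟩

/-- all sectors together -/
theorem all_iff (E : Sys N α) (H : Con N α Ψ) (h0 : AnalyticAt ℂ Ψ 0) (r : ℕ) :
    (analyticOrderAt Ψ 0 = r ∧ ∀ s : ℂ, 0 < s.re → Ψ s ≠ 0) ↔
      ∀ ρ ρ' : ℝ, 1 < ρ → ρ < ρ' → LawE N α ρ ρ' r := by
  constructor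
  · rintro ⟨h1, h2⟩ ρ ρ' hρ hρ'
    exact (law E H h0 hρ hρ' r).1 ⟨h1, fun s hs => h2 s (sect_re hρ hs)⟩
  · intro h
    refine ⟨((law E H h0 (ρ := 2) (ρ' := 3) (by norm_num) (by norm_num) r).2
      (h 2 3 (by norm_num) (by norm_num))).1, fun s hs => ?_⟩
    obtain ⟨n, hn⟩ := Sys.exists_sect hs
    have h1 : (1 : ℝ) < 1 + 1 / ((n : ℝ) + 1) := by
      have : (0 : ℝ) < 1 / ((n : ℝ) + 1) := by positivity
      linarith
    exact ((law E H h0 h1 (lt_add_one _) r).2 (h _ _ h1 (lt_add_one _))).2 s hn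

/-- **The exact exponent of growth.** -/
theorem level (E : Sys N α) (H : Con N α Ψ) (hρ : 1 < ρ) (hρ' : ρ < ρ') {θ : ℝ} (hθ : 0 ≤ θ) :
    (∀ s ∈ Sect ρ, Ψ s = 0 → (s ^ (ρ : ℂ)).re ≤ θ) ↔ GrowthE N α ρ ρ' θ := by
  have h1 := E.Sr_level H hρ hρ' hθ
  unfold GrowthE
  rw [← h1]
  constructor
  · intro h s hs1 hs2 hs3 h0
    exact absurd (h s ⟨hs1, hs2⟩ h0) (not_le.2 hs3)
  · intro h s hs h0
    by_contra h3
    exact h s hs.1 hs.2 (not_le.1 h3) h0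

/-- **Zero-free continuation to a sector and slow growth.** -/
theorem cont_iff (E : Sys N α) (hρ : 1 < ρ) (hρ' : ρ < ρ') :
    (∃ G : ℂ → ℂ, (∀ s : ℂ, s ∈ Sect ρ → DifferentiableAt ℂ G s ∧ G s ≠ 0) ∧
      ∀ s ∈ Sect ρ, 1 / 2 < s.re → G s = LE N α s) ↔ GrowthE N α ρ ρ' 0 := by
  constructor
  · rintro ⟨G, h1, h2⟩ ε hε
    rw [zero_add]
    exact E.small_of_cont hρ hρ' (fun s hs => (h1 s hs).1) (fun s hs => (h1 s hs).2) h2 hε
  · intro h
    obtain ⟨G, h1, h2, -⟩ := E.cont_of_small hρ hρ' fun ε hε => by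
      have := h ε hε
      rwa [zero_add] at this
    exact ⟨G, fun s hs => h1 s (Or.inl hs), fun s _ hs => h2 s hs⟩

/-- **The law without a given continuation.** -/
theorem vertex (E : Sys N α) (hρ : 1 < ρ) (hρ' : ρ < ρ') (h : LawE N α ρ ρ' κ) :
    ∃ G : ℂ → ℂ, (∀ s : ℂ, s ∈ Sect ρ ∨ 1 / 2 < s.re → DifferentiableAt ℂ G s ∧ G s ≠ 0) ∧
      (∀ s : ℂ, 1 / 2 < s.re → G s = LE N α s) ∧
      ∃ A B : ℝ, 0 < A ∧ 0 < B ∧ ∀ x : ℝ, 0 < x → x ≤ 1 →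
        A * x ^ κ ≤ ‖G x‖ ∧ ‖G x‖ ≤ B * x ^ κ := by
  obtain ⟨G, h1, h2, h3⟩ := E.cont_of_small hρ hρ' fun ε hε => by
    have := growth_of_law hρ h ε hε
    rwa [zero_add] at this
  obtain ⟨C, hC⟩ := h
  exact ⟨G, h1, h2, h3 κ C hC⟩

/-- **The law and the behaviour of a continuation along the real axis.** -/
theorem radial (E : Sys N α) (hρ : 1 < ρ) (hρ' : ρ < ρ') (h : LawE N α ρ ρ' κ) {H : ℂ → ℂ}
    (hH : ∀ x : ℝ, 0 < x → AnalyticAt ℂ H x) (hHe : ∀ x : ℝ, 1 / 2 < x → H x = LE N α x) :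
    (∀ x : ℝ, 0 < x → H x ≠ 0) ∧ Central.RO H κ := by
  obtain ⟨G, h1, h2, A, B, hA, hB, h3⟩ := vertex E hρ hρ' h
  have hG : ∀ x : ℝ, 0 < x → AnalyticAt ℂ G x := fun x hx =>
    DifferentiableOn.analyticAt (s := Sect ρ)
      (fun z hz => (h1 z (Or.inl hz)).1.differentiableWithinAt)
      ((sect_open hρ).mem_nhds (sect_real hρ hx))
  have a1 : AnalyticOnNhd ℝ (fun w : ℝ => H (w : ℂ)) (Ioi 0) := fun w hw => OneSide.an_ofReal (hH w hw)
  have a2 : AnalyticOnNhd ℝ (fun w : ℝ => G (w : ℂ)) (Ioi 0) := fun w hw => OneSide.an_ofReal (hG w hw)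
  have a3 := a1.eqOn_of_preconnected_of_eventuallyEq a2 isPreconnected_Ioi
    (show (1 : ℝ) ∈ Ioi (0 : ℝ) by norm_num) (by
      filter_upwards [lt_mem_nhds (show (1 / 2 : ℝ) < 1 by norm_num)] with w hw
      show H w = G w
      rw [hHe w hw, h2 w (by simpa using hw)])
  refine ⟨fun x hx => ?_, A, B, hA, ?_⟩
  · rw [show H x = G x from a3 hx]
    exact (h1 x (Or.inl (sect_real hρ hx))).2
  · have h4 : ∀ᶠ w : ℝ in 𝓝[>] 0, w < 1 := nhdsWithin_le_nhds (gt_mem_nhds one_pos)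
    filter_upwards [self_mem_nhdsWithin, h4] with w hw hw1
    have hw0 : (0 : ℝ) < w := hw
    rw [show H w = G w from a3 hw]
    exact h3 w hw0 hw1.le

/-- the order of a meromorphic continuation along the real axis -/
theorem order_mero (E : Sys N α) (hρ : 1 < ρ) (hρ' : ρ < ρ') (h : LawE N α ρ ρ' κ) {H : ℂ → ℂ}
    (hH : ∀ x : ℝ, 0 < x → AnalyticAt ℂ H x) (hHe : ∀ x : ℝ, 1 / 2 < x → H x = LE N α x)
    (hm : MeromorphicAt H 0) {m : ℤ} (ho : meromorphicOrderAt H 0 = m) : κ = m :=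
  (radial E hρ hρ' h hH hHe).2.unique (Central.ro_of_mero hm ho)

end Pool.Agent.V1194.SO
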