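import Pool.Agent.V1194.SO.Abs
import Pool.Agent.V11333.EVSys

/-!
# The sectorial law for the cohomology groups of varieties over number fields
-/

set_option autoImplicit false

namespace Pool.Agent.V1194.SO

open Filter Topology Set NumberField IsDedekindDomain
open Pool.Agent.TH942.ES Pool.Agent.TH942.SL Pool.Agent.V11333
open Pool.Agent.H921R2.TatePole (nm)

/-- the order of a translate -/
theorem order_add {G : ℂ → ℂ} {a : ℂ} (h0 : AnalyticAt ℂ G a) {r : ℕ} (h : analyticOrderAt G a = r)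
    (b : ℂ) : analyticOrderAt (fun s => G (s + b)) (a - b) = r := by
  obtain ⟨g, hg, hg0, hge⟩ := (h0.analyticOrderAt_eq_natCast).1 h
  have hT : Tendsto (fun z : ℂ => z + b) (𝓝 (a - b)) (𝓝 a) := by
    have h1 : ContinuousAt (fun z : ℂ => z + b) (a - b) := by fun_prop
    have h2 := h1.tendsto
    rwa [sub_add_cancel] at h2
  have hA : ∀ F : ℂ → ℂ, AnalyticAt ℂ F a → AnalyticAt ℂ (fun s => F (s + b)) (a - b) := by
    intro F hF
    have h2 : AnalyticAt ℂ (fun z : ℂ => z + b) (a - b) := by fun_prop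
    have h3 : AnalyticAt ℂ F ((fun z : ℂ => z + b) (a - b)) := by simpa using hF
    exact AnalyticAt.comp (g := F) (f := fun z : ℂ => z + b) h3 h2
  refine ((hA G h0).analyticOrderAt_eq_natCast).2 ⟨fun z => g (z + b), hA g hg, by simpa using hg0, ?_⟩
  filter_upwards [hT.eventually hge] with z hz
  rw [hz]
  congr 2
  ring

theorem order_shift {G : ℂ → ℂ} {c : ℂ} (h0 : AnalyticAt ℂ G c) (r : ℕ) :
    analyticOrderAt G c = r ↔ analyticOrderAt (fun s => G (s + c)) 0 = r := by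
  constructor
  · intro h
    have := order_add h0 h c
    rwa [sub_self] at this
  · intro h
    have h1 : AnalyticAt ℂ (fun s => G (s + c)) 0 := by
      have h2 : AnalyticAt ℂ (fun z : ℂ => z + c) 0 := by fun_prop
      have h3 : AnalyticAt ℂ G ((fun z : ℂ => z + c) 0) := by simpa using h0
      exact AnalyticAt.comp (g := G) (f := fun z : ℂ => z + c) h3 h2
    have := order_add h1 h (-c)
    simpa using this

/-- the open sector with vertex `c` -/
def Sector (c : ℝ) (ρ : ℝ) : Set ℂ := {s | s ≠ c ∧ |(s - c).arg| < Real.pi / (2 * ρ)}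

theorem mem_sector (c ρ : ℝ) (s : ℂ) : s ∈ Sector c ρ ↔ s - c ∈ Sect ρ := by
  unfold Sector Sect
  simp only [Set.mem_ofPred_eq, sub_ne_zero]

/-- the weight `w_ρ(u) = (1/2πi) ∫_{Re z = 1} exp(z - u z^{1/ρ}) dz/z` -/
noncomputable def weight (ρ u : ℝ) : ℝ :=
  (2 * Real.pi)⁻¹ * ∫ t : ℝ, (Complex.exp ((1 + t * Complex.I) -
    u * (1 + t * Complex.I) ^ ((ρ⁻¹ : ℝ) : ℂ)) / (1 + t * Complex.I)).re

section gen

variable {X : Type} {d : ℕ} {N : X → ℕ} {α : X → Fin d → ℂ}

/-- the Euler product is `L (s - c)` -/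
def IsProd (N : X → ℕ) (α : X → Fin d → ℂ) (c : ℝ) (F : X → ℂ → ℂ) : Prop :=
  ∀ s y : ℂ, c + 1 / 2 < s.re → (HasProd (fun v => F v s) y ↔ y = LE N α (s - c))

variable {c : ℝ} {F : X → ℂ → ℂ} {G : ℂ → ℂ} {ρ ρ' κ : ℝ}

/-- zero-free continuation to the sector -/
def ZeroFree (c : ℝ) (F : X → ℂ → ℂ) (ρ : ℝ) : Prop :=
  ∃ G : ℂ → ℂ, (∀ s ∈ Sector c ρ, DifferentiableAt ℂ G s ∧ G s ≠ 0) ∧
    ∀ s ∈ Sector c ρ, c + 1 / 2 < s.re → HasProd (fun v => F v s) (G s)

/-- `G` is a continuation to `Re s > c`, analytic at `c` -/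
def IsCont (c : ℝ) (F : X → ℂ → ℂ) (G : ℂ → ℂ) : Prop :=
  (∀ s : ℂ, c < s.re → DifferentiableAt ℂ G s) ∧ AnalyticAt ℂ G c ∧
    ∀ s : ℂ, c + 1 / 2 < s.re → HasProd (fun v => F v s) (G s)

/-- `H` is a continuation along the real axis -/
def IsRealCont (c : ℝ) (F : X → ℂ → ℂ) (H : ℂ → ℂ) : Prop :=
  (∀ x : ℝ, c < x → AnalyticAt ℂ H x) ∧
    ∀ x : ℝ, c + 1 / 2 < x → HasProd (fun v => F v x) (H x)

/-- the radial order -/
def Radial (c : ℝ) (H : ℂ → ℂ) (κ : ℝ) : Prop :=
  ∃ A B : ℝ, 0 < A ∧ ∀ᶠ x : ℝ in 𝓝[>] c, A * (x - c) ^ κ ≤ ‖H x‖ ∧ ‖H x‖ ≤ B * (x - c) ^ κ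

theorem con_of (E : Sys N α) (hF : IsProd N α c F) (hG : IsCont c F G) :
    Con N α (fun s => G (s + c)) where
  Ψd := fun s hs => by
    have h1 := hG.1 (s + c) (by
      rw [Complex.add_re, Complex.ofReal_re]
      linarith)
    exact h1.comp s (by fun_prop)
  prod := fun s hs => by
    have h1 : c + 1 / 2 < (s + c).re := by
      rw [Complex.add_re, Complex.ofReal_re]
      linarith
    have h2 := (hF (s + c) _ h1).1 (hG.2.2 (s + c) h1)
    rw [add_sub_cancel_right] at h2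
    rw [h2]
    have h3 := E.hasProd hs
    unfold Pool.Agent.TH942.ES.LE
    rwa [h3.tprod_eq]

theorem an_zero (hG : IsCont c F G) : AnalyticAt ℂ (fun s => G (s + c)) 0 := by
  have h2 : AnalyticAt ℂ (fun z : ℂ => z + c) 0 := by fun_prop
  have h3 : AnalyticAt ℂ G ((fun z : ℂ => z + (c : ℂ)) 0) := by simpa using hG.2.1
  exact AnalyticAt.comp (g := G) (f := fun z : ℂ => z + (c : ℂ)) h3 h2

theorem gen_law (E : Sys N α) (hF : IsProd N α c F) (hG : IsCont c F G) (hρ : 1 < ρ)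
    (hρ' : ρ < ρ') (r : ℕ) :
    (analyticOrderAt G c = r ∧ ∀ s ∈ Sector c ρ, G s ≠ 0) ↔ LawE N α ρ ρ' r := by
  rw [← law E (con_of E hF hG) (an_zero hG) hρ hρ' r, order_shift hG.2.1]
  refine and_congr_right fun _ => ⟨fun h s hs => h (s + c) ?_, fun h s hs => ?_⟩
  · rw [mem_sector, add_sub_cancel_right]
    exact hs
  · have := h (s - c) ((mem_sector _ _ _).1 hs)
    simpa using this

theorem gen_all (E : Sys N α) (hF : IsProd N α c F) (hG : IsCont c F G) (r : ℕ) :
    (analyticOrderAt G c = r ∧ ∀ s : ℂ, c < s.re → G s ≠ 0) ↔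
      ∀ ρ ρ' : ℝ, 1 < ρ → ρ < ρ' → LawE N α ρ ρ' r := by
  rw [← all_iff E (con_of E hF hG) (an_zero hG) r, order_shift hG.2.1]
  refine and_congr_right fun _ => ⟨fun h s hs => h (s + c) ?_, fun h s hs => ?_⟩
  · rw [Complex.add_re, Complex.ofReal_re]
    linarith
  · have := h (s - c) (by
      rw [Complex.sub_re, Complex.ofReal_re]
      linarith)
    simpa using this

theorem gen_level (E : Sys N α) (hF : IsProd N α c F) (hG : IsCont c F G) (hρ : 1 < ρ)
    (hρ' : ρ < ρ') {θ : ℝ} (hθ : 0 ≤ θ) :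
    (∀ s ∈ Sector c ρ, G s = 0 → ((s - c) ^ (ρ : ℂ)).re ≤ θ) ↔ GrowthE N α ρ ρ' θ := by
  rw [← level E (con_of E hF hG) hρ hρ' hθ]
  constructor
  · intro h s hs h0
    have := h (s + c) (by rwa [mem_sector, add_sub_cancel_right]) h0
    rwa [add_sub_cancel_right] at this
  · intro h s hs h0
    exact h (s - c) ((mem_sector _ _ _).1 hs) (by simpa using h0)

theorem gen_zero (E : Sys N α) (hF : IsProd N α c F) (hρ : 1 < ρ) (hρ' : ρ < ρ') :
    ZeroFree c F ρ ↔ GrowthE N α ρ ρ' 0 := by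
  rw [← cont_iff E hρ hρ']
  constructor
  · rintro ⟨G, h1, h2⟩
    refine ⟨fun s => G (s + c), fun s hs => ?_, fun s hs h3 => ?_⟩
    · have h4 := h1 (s + c) (by rwa [mem_sector, add_sub_cancel_right])
      exact ⟨h4.1.comp s (by fun_prop), h4.2⟩
    · have h5 : c + 1 / 2 < (s + c).re := by
        rw [Complex.add_re, Complex.ofReal_re]
        linarith
      have h4 := (hF (s + c) _ h5).1 (h2 (s + c) (by rwa [mem_sector, add_sub_cancel_right]) h5)
      rwa [add_sub_cancel_right] at h4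
  · rintro ⟨G, h1, h2⟩
    refine ⟨fun s => G (s - c), fun s hs => ?_, fun s hs h3 => ?_⟩
    · have h4 := h1 (s - c) ((mem_sector _ _ _).1 hs)
      exact ⟨h4.1.comp s (by fun_prop), h4.2⟩
    · rw [hF s _ h3]
      exact h2 (s - c) ((mem_sector _ _ _).1 hs) (by
        rw [Complex.sub_re, Complex.ofReal_re]
        linarith)

theorem radial_iff {H : ℂ → ℂ} : Radial c H κ ↔ Central.RO (fun s => H (s + c)) κ := by
  unfold Radial Central.RO
  refine exists_congr fun B => exists_congr fun C => and_congr_right fun _ => ?_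
  have h1 : Tendsto (fun w : ℝ => w + c) (𝓝[>] 0) (𝓝[>] c) := by
    refine tendsto_nhdsWithin_of_tendsto_nhds_of_eventually_within _ ?_ ?_
    · have : Tendsto (fun w : ℝ => w + c) (𝓝 0) (𝓝 (0 + c)) :=
        (continuous_id.add continuous_const).tendsto _
      rw [zero_add] at this
      exact this.mono_left nhdsWithin_le_nhds
    · filter_upwards [self_mem_nhdsWithin] with w hw
      have : (0 : ℝ) < w := hw
      exact (by linarith : c < w + c)
  have h2 : Tendsto (fun s : ℝ => s - c) (𝓝[>] c) (𝓝[>] 0) := by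
    refine tendsto_nhdsWithin_of_tendsto_nhds_of_eventually_within _ ?_ ?_
    · have : Tendsto (fun s : ℝ => s - c) (𝓝 c) (𝓝 (c - c)) :=
        (continuous_id.sub continuous_const).tendsto _
      rw [sub_self] at this
      exact this.mono_left nhdsWithin_le_nhds
    · filter_upwards [self_mem_nhdsWithin] with s hs
      have : c < s := hs
      exact (by linarith : (0 : ℝ) < s - c)
  constructor
  · intro h
    filter_upwards [h1.eventually h] with w hw
    rw [add_sub_cancel_right] at hw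
    push_cast at hw
    exact hw
  · intro h
    filter_upwards [h2.eventually h] with s hs
    push_cast at hs
    rw [sub_add_cancel] at hs
    exact hs

theorem gen_radial (E : Sys N α) (hF : IsProd N α c F) (hρ : 1 < ρ) (hρ' : ρ < ρ')
    (h : LawE N α ρ ρ' κ) : ZeroFree c F ρ ∧ ∀ H : ℂ → ℂ, IsRealCont c F H →
      (∀ x : ℝ, c < x → H x ≠ 0) ∧ Radial c H κ ∧
      ∀ m : ℤ, MeromorphicAt H (c : ℂ) → meromorphicOrderAt H (c : ℂ) = m → κ = m := by
  refine ⟨(gen_zero E hF hρ hρ').2 (growth_of_law hρ h), fun H hH => ?_⟩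
  have hd : ∀ x : ℝ, 0 < x → AnalyticAt ℂ (fun s => H (s + c)) x := by
    intro x hx
    have e : AnalyticAt ℂ H ((x : ℂ) + c) := by
      have := hH.1 (x + c) (by linarith)
      push_cast at this
      exact this
    exact AnalyticAt.comp (g := H) (f := fun s : ℂ => s + c) e
      (analyticAt_id.add analyticAt_const)
  have he : ∀ x : ℝ, 1 / 2 < x → (fun s => H (s + c)) (x : ℂ) = LE N α x := by
    intro x hx
    have e := (hF ((x + c : ℝ) : ℂ) _ (by rw [Complex.ofReal_re]; linarith)).1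
      (hH.2 (x + c) (by linarith))
    push_cast at e
    rw [add_sub_cancel_right] at e
    exact e
  obtain ⟨h1, h2⟩ := radial E hρ hρ' h hd he
  refine ⟨fun x hx => ?_, radial_iff.2 h2, fun m hm ho => ?_⟩
  · have := h1 (x - c) (by linarith)
    push_cast at this
    rwa [sub_add_cancel] at this
  · have e1 : MeromorphicAt (fun s => H (s + c)) 0 := by
      have h3 : AnalyticAt ℂ (fun z : ℂ => z + c) 0 := by fun_prop
      have h4 : MeromorphicAt H ((fun z : ℂ => z + (c : ℂ)) 0) := by simpa using hm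
      exact MeromorphicAt.comp_analyticAt (f := H) (g := fun z : ℂ => z + (c : ℂ)) h4 h3
    refine order_mero E hρ hρ' h hd he e1 ?_
    rw [← ho]
    have := meromorphicOrderAt_fun_comp_add_const_eq_meromorphicOrderAt (c := (c : ℂ)) (f := H)
      (x := 0)
    rw [zero_add] at this
    exact this

end gen

section HX

variable {K : Type} [Field K] [NumberField K] {n N : ℕ}
variable {S : Set (HeightOneSpectrum (𝓞 K))}

theorem hx_prod {X : Set (MvPolynomial (Fin n) (𝓞 K))} {d i : ℕ} (hi : i ≤ 2 * d)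
    {α : S → Fin N → ℂ} (h : ∀ v, Pool.Agent.V11288.EV.IsFrobenius X d i v.1 (α v)) :
    IsProd (fun v : S => nm v.1) (EVS.nal i α) (EVS.ctr i)
      (fun v s => ∏ j, (1 - α v j * (nm v.1 : ℂ) ^ (-s))⁻¹) := by
  intro s y hs
  exact EVS.hasProd_iff hi h (by
    unfold EVS.ctr at hs
    linarith) y

theorem hx_mean {X : Set (MvPolynomial (Fin n) (𝓞 K))} {d i : ℕ}
    {α : S → Fin N → ℂ} (h : ∀ v, Pool.Agent.V11288.EV.IsFrobenius X d i v.1 (α v))
    (ρ ρ' Y : ℝ) : (∑ᶠ (v : S) (_ : (nm v.1 : ℝ) ≤ Real.exp (Real.log Y ^ ρ')),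
      weight ρ (Real.log (nm v.1) / Real.log Y) *
        Real.log ‖∏ j, (1 - α v j * (nm v.1 : ℂ) ^ (-(EVS.ctr i : ℂ)))‖) =
      SrE (fun v : S => nm v.1) (EVS.nal i α) ρ ρ' Y := by
  unfold SrE
  refine finsum_congr fun v => finsum_congr fun _ => ?_
  rw [EVS.cv_log h]
  rfl

end HX

end Pool.Agent.V1194.SO
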