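import Pool.Agent.V1194.SO.HX

/-!
# The sectorial law for systems of local polynomials
-/

set_option autoImplicit false

namespace Pool.Agent.V1194.SO

open Filter Topology Set NumberField IsDedekindDomain
open Pool.Agent.TH942.ES Pool.Agent.TH942.SL Pool.Agent.V11333
open Pool.Agent.H921R2.TatePole (nm)
open scoped ComplexConjugate

theorem roots_lin {b : ℂ} (hb : b ≠ 0) :
    (1 - Polynomial.C b * Polynomial.X : Polynomial ℂ).roots = {b⁻¹} := by
  have h1 : (1 - Polynomial.C b * Polynomial.X : Polynomial ℂ) =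
      Polynomial.C (-b) * (Polynomial.X - Polynomial.C b⁻¹) := by
    rw [mul_sub, ← Polynomial.C_mul, Polynomial.C_neg]
    rw [show -b * b⁻¹ = -1 by field_simp]
    simp
    ring
  rw [h1, Polynomial.roots_C_mul _ (neg_ne_zero.2 hb), Polynomial.roots_X_sub_C]

theorem roots_all {N : ℕ} {b : Fin N → ℂ} (hb : ∀ j, b j ≠ 0) :
    (∏ j, (1 - Polynomial.C (b j) * Polynomial.X : Polynomial ℂ)).roots =
      Finset.univ.val.map fun j => (b j)⁻¹ := by
  have hne : (∏ j, (1 - Polynomial.C (b j) * Polynomial.X : Polynomial ℂ)) ≠ 0 := by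
    rw [Finset.prod_ne_zero_iff]
    intro j _ h0
    have := congrArg (Polynomial.eval 0) h0
    simp at this
  rw [Polynomial.roots_prod _ _ hne]
  simp only [fun j => roots_lin (hb j)]
  rw [Multiset.bind_singleton]

/-- the reciprocal roots of a real polynomial are symmetric -/
theorem conj_inv {N : ℕ} {a : Fin N → ℂ} (ha : ∀ j, a j ≠ 0)
    (hc : ∀ z : ℂ, conj (∏ j, (1 - a j * z)) = ∏ j, (1 - a j * conj z)) :
    (Finset.univ.val.map fun j => conj (a j)) = Finset.univ.val.map a := by
  have h1 : (∏ j, (1 - Polynomial.C (conj (a j)) * Polynomial.X : Polynomial ℂ)) =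
      ∏ j, (1 - Polynomial.C (a j) * Polynomial.X : Polynomial ℂ) := by
    apply Polynomial.funext
    intro z
    have h2 := hc (conj z)
    rw [Complex.conj_conj, map_prod] at h2
    simp only [map_sub, map_one, map_mul, Complex.conj_conj] at h2
    rw [Polynomial.eval_prod, Polynomial.eval_prod]
    simp only [Polynomial.eval_sub, Polynomial.eval_one, Polynomial.eval_mul, Polynomial.eval_C,
      Polynomial.eval_X]
    exact h2
  have h2 := congrArg Polynomial.roots h1
  rw [roots_all fun j => (map_ne_zero _).2 (ha j), roots_all ha] at h2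
  have h3 := congrArg (Multiset.map fun z : ℂ => z⁻¹) h2
  rw [Multiset.map_map, Multiset.map_map] at h3
  simpa only [Function.comp_def, inv_inv] using h3

/-- symmetric sums commuting with conjugation are real -/
theorem real_sum {N : ℕ} {a : Fin N → ℂ} (ha : ∀ j, a j ≠ 0)
    (hc : ∀ z : ℂ, conj (∏ j, (1 - a j * z)) = ∏ j, (1 - a j * conj z)) (g : ℂ → ℂ)
    (hg : ∀ j, g (conj (a j)) = conj (g (a j))) : (∑ j, g (a j)).im = 0 := by
  have h2 := congrArg (fun s : Multiset ℂ => (s.map g).sum) (conj_inv ha hc)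
  simp only [Multiset.map_map] at h2
  change ∑ j, g (conj (a j)) = ∑ j, g (a j) at h2
  simp only [hg] at h2
  rw [← map_sum] at h2
  exact Complex.conj_eq_iff_im.1 h2

theorem real_log {N : ℕ} {a : Fin N → ℂ} (ha : ∀ j, a j ≠ 0) (h1 : ∀ j, ‖a j‖ < 1)
    (hc : ∀ z : ℂ, conj (∏ j, (1 - a j * z)) = ∏ j, (1 - a j * conj z)) :
    (∑ j, Complex.log (1 - a j)).im = 0 := by
  refine real_sum ha hc (fun z => Complex.log (1 - z)) fun j => ?_
  rw [← Complex.log_conj]
  · rw [map_sub, map_one]
  · intro h2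
    have h3 := (Complex.arg_eq_pi_iff.1 h2).1
    rw [Complex.sub_re, Complex.one_re] at h3
    have h4 := (Complex.re_le_norm (a j)).trans_lt (h1 j)
    linarith

/-- conjugation and integral polynomials -/
theorem conj_int (P : Polynomial ℤ) (z : ℂ) :
    conj (Polynomial.aeval z P) = Polynomial.aeval (conj z) P := by
  rw [Polynomial.aeval_def, Polynomial.aeval_def, Polynomial.hom_eval₂]
  congr 1
  exact RingHom.ext_int _ _

/-- conjugation and rational polynomials -/
theorem conj_rat (P : Polynomial ℚ) (z : ℂ) :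
    conj (Polynomial.aeval z P) = Polynomial.aeval (conj z) P := by
  rw [Polynomial.aeval_def, Polynomial.aeval_def, Polynomial.hom_eval₂]
  congr 1
  exact RingHom.ext_rat _ _

variable {K : Type} [Field K] [NumberField K] {N : ℕ} {S : Set (HeightOneSpectrum (𝓞 K))}

/-- pure systems of weight `-1` -/
structure Pur (a : S → Fin N → ℂ) : Prop where
  abs : ∀ v j, ‖a v j‖ * √(nm v.1 : ℝ) = 1
  sym : ∀ (v : S) (z : ℂ), conj (∏ j, (1 - a v j * z)) = ∏ j, (1 - a v j * conj z)

/-- the normalised eigenvalues -/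
noncomputable def nor (a : S → Fin N → ℂ) (v : S) (j : Fin N) : ℂ :=
  a v j * ((√(nm v.1 : ℝ) : ℝ) : ℂ)

theorem sqrt_pos (v : S) : 0 < √(nm v.1 : ℝ) := by
  have h2 := EVS.nrm_two v.1
  exact Real.sqrt_pos.2 (by linarith)

theorem zv_nor (a : S → Fin N → ℂ) (v : S) (j : Fin N) :
    zv (fun v : S => nm v.1) (nor a) v j = a v j := by
  change a v j * ((√(nm v.1 : ℝ) : ℝ) : ℂ) / ((√(nm v.1 : ℝ) : ℝ) : ℂ) = _
  have := sqrt_pos v
  rw [mul_div_assoc, div_self (by exact_mod_cast this.ne'), mul_one]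

namespace Pur

variable {a : S → Fin N → ℂ} (h : Pur a)
include h

theorem norm_lt (v : S) (j : Fin N) : ‖a v j‖ < 1 := by
  have h1 := h.abs v j
  have h2 := EVS.nrm_two v.1
  have h3 : 1 < √(nm v.1 : ℝ) := by
    rw [Real.lt_sqrt (by norm_num)]
    linarith
  have h4 := norm_nonneg (a v j)
  by_contra hcon
  push Not at hcon
  nlinarith

theorem ne_zero (v : S) (j : Fin N) : a v j ≠ 0 := by
  intro h0
  have h1 := h.abs v j
  rw [h0, norm_zero, zero_mul] at h1
  exact zero_ne_one h1

theorem sys : Sys (fun v : S => nm v.1) (nor a) :=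
  nf_sys (fun v => v ∈ S) (nor a) (fun v j => by
      unfold nor
      rw [norm_mul, Complex.norm_real, Real.norm_eq_abs, abs_of_pos (sqrt_pos v)]
      exact (h.abs v j).le) fun v => by
    have h1 : ∀ j, nor a v j / ((√(((nm v.1 : ℕ) : ℝ)) : ℝ) : ℂ) = a v j := fun j => zv_nor a v j
    simp only [h1]
    exact real_log (h.ne_zero v) (h.norm_lt v) (h.sym v)

theorem cv_eq (v : S) : cv (fun v : S => nm v.1) (nor a) v = Real.log ‖∏ j, (1 - a v j)‖ := by
  unfold cv
  rw [norm_prod, Real.log_prod, Complex.re_sum]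
  · refine Finset.sum_congr rfl fun j _ => ?_
    rw [Complex.log_re, zv_nor]
  · intro j _
    rw [norm_ne_zero_iff]
    intro h0
    have h1 := h.norm_lt v j
    rw [← sub_eq_zero.1 h0, norm_one] at h1
    exact lt_irrefl _ h1

theorem isProd : IsProd (fun v : S => nm v.1) (nor a) 0
    (fun v s => ∏ j, (1 - a v j * (nm v.1 : ℂ) ^ (-s))⁻¹) := by
  intro s y hs
  have h1 : 1 / 2 < s.re := by linarith
  have h2 := h.sys.hasProd h1
  have e : (fun v : S => ∏ j, (1 - a v j * (nm v.1 : ℂ) ^ (-s))⁻¹) = fun v : S =>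
      ∏ j, (1 - zv (fun v : S => nm v.1) (nor a) v j * xv (fun v : S => nm v.1) v s)⁻¹ := by
    funext v
    have h2 := EVS.nrm_two v.1
    have h0 : (0 : ℝ) < nm v.1 := by linarith
    have hc : (nm v.1 : ℂ) ≠ 0 := by exact_mod_cast h0.ne'
    refine Finset.prod_congr rfl fun j _ => ?_
    rw [zv_nor]
    congr 3
    rw [Complex.cpow_def_of_ne_zero hc]
    unfold xv
    congr 1
    change _ = -(s * ((Real.log (nm v.1 : ℝ) : ℝ) : ℂ))
    rw [Complex.ofReal_log h0.le, Complex.ofReal_natCast]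
    ring
  rw [e, Complex.ofReal_zero, sub_zero]
  constructor
  · intro h
    exact h.tprod_eq.symm
  · rintro rfl
    unfold Pool.Agent.TH942.ES.LE
    rw [h2.tprod_eq]
    exact h2

end Pur

end Pool.Agent.V1194.SO
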